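import Pool.Agent.N783.PQ.Cnt
import Pool.Agent.N568.PJ.D12

/-!
# Weakly divisible discriminants (part WK of project PQ of helper783; written by helper755)
-/

set_option autoImplicit false

open Polynomial

namespace Pool.Agent.N755.PQ.WK

open Pool.Agent.N352.PJ (pol dis Dy D2)
open Pool.Agent.N568.PJ (pol_map dis_map Dy_map D2_map d1)
open Pool.Agent.N783.PQ (Weak S_WK)

section general

variable {g : ℕ} {R : Type} [CommRing R]

lemma pol_natDegree (a : Fin (2 * g) → R) : (pol a).natDegree ≤ 2 * g + 1 := by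
  unfold pol
  refine (natDegree_add_le _ _).trans (max_le (natDegree_X_pow_le _) ?_)
  refine natDegree_sum_le_of_forall_le _ _ fun j _ => ?_
  exact (natDegree_C_mul_X_pow_le _ _).trans (by have := j.2; omega)

lemma der_natDegree (a : Fin (2 * g) → R) : (derivative (pol a)).natDegree ≤ 2 * g :=
  (natDegree_derivative_le _).trans (by have := pol_natDegree a; omega)

lemma der_coeff (a : Fin (2 * g) → R) : (derivative (pol a)).coeff (2 * g) = 2 * g + 1 := by
  rw [coeff_derivative]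
  have h : (pol a).coeff (2 * g + 1) = 1 := by
    unfold pol
    rw [coeff_add, coeff_X_pow_self, finsetSum_coeff]
    rw [Finset.sum_eq_zero, add_zero]
    intro j _
    rw [coeff_C_mul_X_pow, if_neg]
    have := j.2
    omega
  rw [h]
  push_cast
  ring

lemma pol_upd (hg : 0 < 2 * g) (a : Fin (2 * g) → R) (y : R) :
    pol (fun j : Fin (2 * g) => if (j : ℕ) = 0 then y else a j) =
      pol a + C (y - a ⟨0, hg⟩) := by
  unfold pol
  rw [add_assoc]
  congr 1
  have h : ∀ j : Fin (2 * g), C (if (j : ℕ) = 0 then y else a j) * X ^ (j : ℕ) =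
      C (a j) * X ^ (j : ℕ) + if j = ⟨0, hg⟩ then C (y - a ⟨0, hg⟩) else 0 := by
    intro j
    by_cases hj : (j : ℕ) = 0
    · have hj' : j = ⟨0, hg⟩ := Fin.ext hj
      subst hj'
      simp
    · have hj' : j ≠ ⟨0, hg⟩ := fun h => hj (by rw [h])
      rw [if_neg hj, if_neg hj', add_zero]
  rw [Finset.sum_congr rfl fun j _ => h j, Finset.sum_add_distrib, Finset.sum_ite_eq' Finset.univ,
    if_pos (Finset.mem_univ _)]

end general

/-- the identity of Bézout -/
lemma bez {g : ℕ} (hg : 0 < 2 * g) (a : Fin (2 * g) → ℤ) : ∃ U V : ℤ → ℤ[X], ∀ c : ℤ,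
    (C ((pol a).eval c) + (X - C (a ⟨0, hg⟩))) * U c +
      C ((derivative (pol a)).eval c) * V c = Dy a := by
  set b : Fin (2 * g) → ℤ[X] := fun j => if (j : ℕ) = 0 then X else C (a j) with hb
  obtain ⟨p, q, -, -, hpq⟩ := exists_mul_add_mul_eq_C_resultant (pol b) (derivative (pol b))
    (m := 2 * g + 1) (n := 2 * g) (pol_natDegree b) (der_natDegree b) (Or.inl (by omega))
  refine ⟨fun c => p.eval (C c), fun c => q.eval (C c), fun c => ?_⟩
  have h1 := congrArg (eval (C c)) hpq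
  rw [eval_add, eval_mul, eval_mul, eval_C] at h1
  have h2 : pol b = (pol a).map C + C (X - C (a ⟨0, hg⟩)) := by
    rw [hb, pol_upd hg (fun j => C (a j)) X, pol_map]
  have h3 : eval (C c) (pol b) = C ((pol a).eval c) + (X - C (a ⟨0, hg⟩)) := by
    rw [h2, eval_add, eval_C, eval_map, eval₂_at_apply]
  have h4 : eval (C c) (derivative (pol b)) = C ((derivative (pol a)).eval c) := by
    rw [h2, derivative_add, derivative_C, add_zero, derivative_map, eval_map, eval₂_at_apply]
  rw [h3, h4] at h1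
  exact h1

section closed

variable {g : ℕ} {K : Type} [Field K] [IsAlgClosed K]

omit [IsAlgClosed K] in
lemma der_deg (hn : (2 * g + 1 : K) ≠ 0) (b : Fin (2 * g) → K) :
    (derivative (pol b)).natDegree = 2 * g :=
  natDegree_eq_of_le_of_coeff_ne_zero (der_natDegree b) (by rw [der_coeff]; exact hn)

lemma prodK (hg : 0 < 2 * g) (hn : (2 * g + 1 : K) ≠ 0) (b : Fin (2 * g) → K) :
    Dy b = C ((2 * g + 1 : K) ^ (2 * g + 1)) * ((derivative (pol b)).roots.map
      (fun β => X + C ((pol b).eval β - b ⟨0, hg⟩))).prod := by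
  have : Infinite K := IsAlgClosed.instInfinite
  apply Polynomial.funext
  intro y
  have hd := der_deg hn b
  rw [(d1 g K b (by omega)).2.2 y]
  unfold dis
  rw [pol_upd hg, derivative_add, derivative_C, add_zero, resultant_comm]
  have h1 := resultant_eq_prod_eval (derivative (pol b)) (pol b + C (y - b ⟨0, hg⟩)) (2 * g + 1)
    ((natDegree_add_le _ _).trans (max_le (pol_natDegree b) (by rw [natDegree_C]; omega)))
    (IsAlgClosed.splits _)
  rw [hd] at h1
  have h2 : (derivative (pol b)).leadingCoeff = 2 * g + 1 := by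
    rw [leadingCoeff, hd, der_coeff]
  rw [h2] at h1
  have h3 : (-1 : K) ^ ((2 * g + 1) * (2 * g)) = 1 :=
    Even.neg_one_pow (by rw [mul_comm, mul_assoc]; exact even_two_mul _)
  rw [h1, h3, one_mul, eval_mul, eval_C, eval_multiset_prod, Multiset.map_map]
  congr 2
  refine Multiset.map_congr rfl fun β _ => ?_
  rw [Function.comp_apply, eval_add, eval_C, eval_add, eval_X, eval_C]
  ring

lemma root_struct (hg : 0 < 2 * g) (hn : (2 * g + 1 : K) ≠ 0) (b : Fin (2 * g) → K)
    (h0 : (Dy b).eval (b ⟨0, hg⟩) = 0) (h1 : (derivative (Dy b)).eval (b ⟨0, hg⟩) ≠ 0) :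
    ∃ β, (pol b).eval β = 0 ∧ (derivative (pol b)).eval β = 0 ∧
      (derivative (derivative (pol b))).eval β ≠ 0 ∧
      ∀ γ, (pol b).eval γ = 0 → (derivative (pol b)).eval γ = 0 → γ = β := by
  classical
  have hf0 : derivative (pol b) ≠ 0 := by
    intro h
    have := der_coeff b
    rw [h, coeff_zero] at this
    exact hn this.symm
  have hN : (2 * g + 1 : K) ^ (2 * g + 1) ≠ 0 := pow_ne_zero _ hn
  obtain ⟨β, hβ, hβ0⟩ : ∃ β ∈ (derivative (pol b)).roots, (pol b).eval β = 0 := by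
    rw [prodK hg hn b, eval_mul, eval_C, eval_multiset_prod, Multiset.map_map] at h0
    rcases mul_eq_zero.1 h0 with h | h
    · exact absurd h hN
    · obtain ⟨β, hβ, hβ0⟩ := Multiset.mem_map.1 (Multiset.prod_eq_zero_iff.1 h)
      refine ⟨β, hβ, ?_⟩
      rw [Function.comp_apply, eval_add, eval_X, eval_C] at hβ0
      linear_combination hβ0
  obtain ⟨t, ht⟩ := Multiset.exists_cons_of_mem hβ
  have ht0 : ∀ γ ∈ t, (pol b).eval γ ≠ 0 := by
    intro γ hγ hγ0
    apply h1
    rw [prodK hg hn b, ht, Multiset.map_cons, Multiset.prod_cons, hβ0, derivative_mul,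
      derivative_C, zero_mul, zero_add, derivative_mul, eval_mul, eval_add, eval_mul, eval_mul]
    have h2 : eval (b ⟨0, hg⟩) (X + C (0 - b ⟨0, hg⟩)) = 0 := by
      rw [eval_add, eval_X, eval_C]; ring
    have h3 : eval (b ⟨0, hg⟩) (Multiset.map (fun β => X + C ((pol b).eval β - b ⟨0, hg⟩)) t).prod =
        0 := by
      rw [eval_multiset_prod, Multiset.map_map]
      apply Multiset.prod_eq_zero
      rw [Multiset.mem_map]
      refine ⟨γ, hγ, ?_⟩
      rw [Function.comp_apply, eval_add, eval_X, eval_C, hγ0]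
      ring
    rw [h2, h3]
    ring
  refine ⟨β, hβ0, (mem_roots hf0).1 hβ, ?_, ?_⟩
  · intro h
    have h2 : 1 < (derivative (pol b)).rootMultiplicity β :=
      (one_lt_rootMultiplicity_iff_isRoot hf0).2 ⟨(mem_roots hf0).1 hβ, h⟩
    rw [← count_roots, ht, Multiset.count_cons_self] at h2
    exact ht0 β (Multiset.count_pos.1 (by omega)) hβ0
  · intro γ hγ hγ'
    have h2 : γ ∈ (derivative (pol b)).roots := (mem_roots hf0).2 hγ'
    rw [ht, Multiset.mem_cons] at h2
    rcases h2 with h2 | h2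
    · exact h2
    · exact absurd hγ (ht0 γ h2)

end closed

lemma frob_fixed {P : ℕ} [Fact P.Prime] {K : Type} [Field K] [Algebra (ZMod P) K] (β : K)
    (h : β ^ P = β) : ∃ b : ZMod P, algebraMap (ZMod P) K b = β := by
  classical
  have hP := (Fact.out : P.Prime)
  have hne : (X ^ P - X : K[X]) ≠ 0 := FiniteField.X_pow_card_sub_X_ne_zero K hP.one_lt
  have hsub : (Finset.univ : Finset (ZMod P)).image (algebraMap (ZMod P) K) ⊆
      (X ^ P - X : K[X]).roots.toFinset := by
    intro x hx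
    obtain ⟨b, -, rfl⟩ := Finset.mem_image.1 hx
    rw [Multiset.mem_toFinset, mem_roots hne, IsRoot.def, eval_sub, eval_pow, eval_X, ← map_pow,
      ZMod.pow_card, sub_self]
  have hcard : (X ^ P - X : K[X]).roots.toFinset.card ≤
      ((Finset.univ : Finset (ZMod P)).image (algebraMap (ZMod P) K)).card := by
    rw [Finset.card_image_of_injective _ (algebraMap (ZMod P) K).injective, Finset.card_univ,
      ZMod.card]
    refine (Multiset.toFinset_card_le _).trans ((card_roots' _).trans ?_)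
    rw [FiniteField.X_pow_card_sub_X_natDegree_eq K hP.one_lt]
  have heq := Finset.eq_of_subset_of_card_le hsub hcard
  have hβ : β ∈ (X ^ P - X : K[X]).roots.toFinset := by
    rw [Multiset.mem_toFinset, mem_roots hne, IsRoot.def, eval_sub, eval_pow, eval_X, h, sub_self]
  rw [← heq] at hβ
  obtain ⟨b, -, hb⟩ := Finset.mem_image.1 hβ
  exact ⟨b, hb⟩

/-- a common zero of `f` and `f'` modulo `P`, a simple zero of `f'` -/
lemma exists_c {g P : ℕ} (hg : 0 < 2 * g) (hP : P.Prime) (hPn : 2 * g + 1 < P)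
    (a : Fin (2 * g) → ℤ) (h0 : (P : ℤ) ∣ (Dy a).eval (a ⟨0, hg⟩))
    (h1 : ¬ (P : ℤ) ∣ (derivative (Dy a)).eval (a ⟨0, hg⟩)) :
    ∃ c : ℤ, (P : ℤ) ∣ (pol a).eval c ∧ (P : ℤ) ∣ (derivative (pol a)).eval c ∧
      ¬ (P : ℤ) ∣ (derivative (derivative (pol a))).eval c := by
  have : Fact P.Prime := ⟨hP⟩
  let K := AlgebraicClosure (ZMod P)
  let φ : ℤ →+* K := (algebraMap (ZMod P) K).comp (Int.castRingHom (ZMod P))
  have hφ : ∀ m : ℤ, φ m = 0 ↔ (P : ℤ) ∣ m := by
    intro m
    have : φ m = algebraMap (ZMod P) K ((m : ℤ) : ZMod P) := rfl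
    rw [this, map_eq_zero, ZMod.intCast_zmod_eq_zero_iff_dvd]
  have hev : ∀ (h : ℤ[X]) (c : ℤ), (h.map φ).eval (φ c) = φ (h.eval c) := by
    intro h c
    rw [eval_map, eval₂_at_apply]
  have hn : (2 * g + 1 : K) ≠ 0 := by
    have h2 : φ ((2 * g + 1 : ℕ) : ℤ) = (2 * g + 1 : K) := by
      rw [map_natCast]; push_cast; rfl
    rw [← h2, Ne, hφ]
    intro h3
    have h4 := Int.le_of_dvd (by positivity) h3
    have h5 : (P : ℤ) ≤ (2 * g + 1 : ℕ) := h4
    omega
  obtain ⟨β, hβ0, hβ1, hβ2, hβu⟩ := root_struct hg hn (fun j => φ (a j))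
    (by rw [← Dy_map, hev, hφ]; exact h0)
    (by rw [← Dy_map, derivative_map, hev, Ne, hφ]; exact h1)
  rw [← pol_map] at hβ0 hβ1 hβ2
  have hfr : ∀ h : ℤ[X], (h.map φ).eval (β ^ P) = ((h.map φ).eval β) ^ P := by
    intro h
    have e1 : ∀ x : K, (h.map φ).eval x = aeval x (h.map (Int.castRingHom (ZMod P))) := by
      intro x
      have : h.map φ = (h.map (Int.castRingHom (ZMod P))).map (algebraMap (ZMod P) K) := by
        rw [Polynomial.map_map]
      rw [this, eval_map_algebraMap]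
    rw [e1, e1, ← map_pow, ← ZMod.expand_card, expand_aeval]
  have hβP : β ^ P = β := by
    apply hβu
    · rw [← pol_map, hfr, hβ0, zero_pow hP.ne_zero]
    · rw [← pol_map, derivative_map, hfr, ← derivative_map, hβ1, zero_pow hP.ne_zero]
  obtain ⟨b, hb⟩ := frob_fixed β hβP
  obtain ⟨c, hc⟩ := ZMod.intCast_surjective b
  have hφc : φ c = β := by
    rw [← hb, ← hc]; rfl
  rw [← hφc] at hβ0 hβ1 hβ2
  rw [hev, hφ] at hβ0
  rw [derivative_map, hev, hφ] at hβ1
  rw [derivative_map, derivative_map, hev, Ne, hφ] at hβ2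
  exact ⟨c, hβ0, hβ1, hβ2⟩

/-- Hensel's lemma modulo `P ^ 2` -/
lemma hensel {P : ℕ} (hP : P.Prime) (h : ℤ[X]) (c : ℤ) (h0 : (P : ℤ) ∣ h.eval c)
    (h1 : ¬ (P : ℤ) ∣ (derivative h).eval c) :
    ∃ s : ℤ, (P : ℤ) ^ 2 ∣ h.eval (c + P * s) := by
  obtain ⟨m, hm⟩ := h0
  have hcop : IsCoprime ((derivative h).eval c) (P : ℤ) := by
    have h2 : IsCoprime (P : ℤ) ((derivative h).eval c) :=
      (Nat.prime_iff_prime_int.1 hP).coprime_iff_not_dvd.2 h1
    exact h2.symm
  obtain ⟨u, v, huv⟩ := hcop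
  refine ⟨-(m * u), ?_⟩
  obtain ⟨k, hk⟩ := h.binomExpansion c (P * -(m * u))
  rw [hk, hm]
  refine ⟨m * v + k * (m * u) ^ 2, ?_⟩
  linear_combination (m * (P : ℤ)) * (-1) * huv

theorem wk : S_WK := by
  intro g P hg hP hPn a hdis hD2
  have hg2 : 0 < 2 * g := by omega
  obtain ⟨hdeg, -, hev⟩ := d1 g ℤ a hg
  have hDa : (Dy a).eval (a ⟨0, hg2⟩) = dis a := by
    rw [hev]
    congr 1
    funext j
    split_ifs with h
    · congr 1
      exact (Fin.ext h).symm
    · rfl
  have hPd : (P : ℤ) ∣ dis a := dvd_trans (dvd_pow_self _ two_ne_zero) hdis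
  have hD' : ¬ (P : ℤ) ∣ (derivative (Dy a)).eval (a ⟨0, hg2⟩) := by
    intro h
    obtain ⟨p, q, -, -, hpq⟩ := exists_mul_add_mul_eq_C_resultant (Dy a) (derivative (Dy a))
      (m := 2 * g) (n := 2 * g - 1) hdeg ((natDegree_derivative_le _).trans (by omega))
      (Or.inl (by omega))
    apply hD2
    have h1 := congrArg (eval (a ⟨0, hg2⟩)) hpq
    rw [eval_add, eval_mul, eval_mul, eval_C, hDa] at h1
    show (P : ℤ) ∣ (Dy a).resultant (derivative (Dy a)) (2 * g) (2 * g - 1)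
    rw [← h1]
    exact dvd_add (hPd.mul_right _) (h.mul_right _)
  obtain ⟨c₀, hc0, hc1, hc2⟩ := exists_c hg2 hP hPn a (by rw [hDa]; exact hPd) hD'
  obtain ⟨s, hs⟩ := hensel hP (derivative (pol a)) c₀ hc1 hc2
  have hcP : (P : ℤ) ∣ (pol a).eval (c₀ + P * s) := by
    have h1 := sub_dvd_eval_sub (c₀ + P * s) c₀ (pol a)
    rw [add_sub_cancel_left] at h1
    have h2 : (P : ℤ) ∣ (pol a).eval (c₀ + P * s) - (pol a).eval c₀ := (Dvd.intro _ rfl).trans h1
    have h3 := dvd_add h2 hc0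
    rwa [sub_add_cancel] at h3
  obtain ⟨U, V, hUV⟩ := bez hg2 a
  have hB := hUV (c₀ + P * s)
  set c := c₀ + P * s with hc
  refine ⟨c, ?_, dvd_trans (dvd_pow_self _ two_ne_zero) hs⟩
  have e0 := congrArg (eval (a ⟨0, hg2⟩)) hB
  have e1 := congrArg (eval (a ⟨0, hg2⟩)) (congrArg derivative hB)
  rw [hDa] at e0
  simp only [eval_add, eval_mul, eval_sub, eval_C, eval_X, derivative_add, derivative_mul,
    derivative_C, derivative_X, derivative_sub, zero_mul, zero_add, sub_zero, one_mul,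
    sub_self, add_zero] at e0 e1
  -- `U` is a unit
  have hU : ¬ (P : ℤ) ∣ (U c).eval (a ⟨0, hg2⟩) := by
    intro h
    apply hD'
    rw [← e1]
    refine dvd_add (dvd_add h (hcP.mul_right _)) ?_
    exact (dvd_trans (dvd_pow_self _ two_ne_zero) hs).mul_right _
  have hdiv : (P : ℤ) ^ 2 ∣ (pol a).eval c * (U c).eval (a ⟨0, hg2⟩) := by
    have h1 : (pol a).eval c * (U c).eval (a ⟨0, hg2⟩) =
        dis a - (derivative (pol a)).eval c * (V c).eval (a ⟨0, hg2⟩) := by
      rw [← e0]; ring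
    rw [h1]
    exact dvd_sub hdis (hs.mul_right _)
  have hcop : IsCoprime ((P : ℤ) ^ 2) ((U c).eval (a ⟨0, hg2⟩)) :=
    IsCoprime.pow_left ((Nat.prime_iff_prime_int.1 hP).coprime_iff_not_dvd.2 hU)
  exact hcop.dvd_of_dvd_mul_right hdiv

end Pool.Agent.N755.PQ.WK
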